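import Pool.Agent.H323R2.Gen3

/-!
Partial sums of the coefficients of a power series; number of indices where they do not vanish.
-/

set_option autoImplicit false

namespace Pool.Agent.TH842.A3

open Finset
open Pool.Agent.H323R2.Gen (pc pc_add_le pc_mul_le pc_C_le pc_pow_le pc_sum_le pc_aeval_le sum_coeff)

section
variable {k : Type} [CommRing k]

/-- partial sums of the coefficients -/
noncomputable def val (A : PowerSeries k) (R : ℕ) : k :=
  PowerSeries.coeff R (A * PowerSeries.mk (1 : ℕ → k))

/-- number of indices up to `N` with nonzero partial sum -/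
noncomputable def mu (N : ℕ) (A : PowerSeries k) : ℕ := pc N (A * PowerSeries.mk (1 : ℕ → k))

lemma val_eq_sum (A : PowerSeries k) (R : ℕ) :
    val A R = ∑ n ∈ range (R + 1), PowerSeries.coeff n A := (sum_coeff A R).symm

lemma val_add (A B : PowerSeries k) (R : ℕ) : val (A + B) R = val A R + val B R := by
  simp only [val, add_mul, map_add]

lemma val_sub (A B : PowerSeries k) (R : ℕ) : val (A - B) R = val A R - val B R := by
  simp only [val, sub_mul, map_sub]

lemma val_neg (A : PowerSeries k) (R : ℕ) : val (-A) R = - val A R := by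
  simp only [val, neg_mul, map_neg]

lemma val_sum {ι : Type} (s : Finset ι) (F : ι → PowerSeries k) (R : ℕ) :
    val (∑ i ∈ s, F i) R = ∑ i ∈ s, val (F i) R := by
  simp only [val, Finset.sum_mul, map_sum]

lemma val_mul (A B : PowerSeries k) (R : ℕ) :
    val (A * B) R = ∑ y ∈ range (R + 1), PowerSeries.coeff y A * val B (R - y) := by
  unfold val
  rw [mul_assoc, PowerSeries.coeff_mul, Finset.Nat.sum_antidiagonal_eq_sum_range_succ
    (fun i j => PowerSeries.coeff i A * PowerSeries.coeff j (B * PowerSeries.mk (1 : ℕ → k)))]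

lemma val_C (a : k) (R : ℕ) : val (PowerSeries.C a) R = a := by
  rw [val_eq_sum, Finset.sum_eq_single 0]
  · simp
  · intro n _ hn
    rw [PowerSeries.coeff_C, if_neg hn]
  · intro h; exact absurd (Finset.mem_range.2 (Nat.succ_pos _)) h

lemma val_succ (A : PowerSeries k) (R : ℕ) :
    val A (R + 1) = val A R + PowerSeries.coeff (R + 1) A := by
  rw [val_eq_sum, val_eq_sum, Finset.sum_range_succ]

/-- no coefficient in `(X, Y]`: constant -/
lemma val_const (A : PowerSeries k) {X Y : ℕ} (hXY : X ≤ Y)
    (h : ∀ y, X < y → y ≤ Y → PowerSeries.coeff y A = 0) : val A Y = val A X := by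
  induction Y, hXY using Nat.le_induction with
  | base => rfl
  | succ Y hY ih =>
    rw [val_succ, h (Y + 1) (by omega) le_rfl, add_zero]
    exact ih (fun y h1 h2 => h y h1 (by omega))

open Classical in
lemma mu_eq (N : ℕ) (A : PowerSeries k) :
    mu N A = ((range (N + 1)).filter (fun R => val A R ≠ 0)).card := by
  unfold mu pc val
  congr!

lemma pc_mono {N N' : ℕ} (h : N ≤ N') (A : PowerSeries k) : pc N A ≤ pc N' A := by
  classical
  unfold pc
  apply Finset.card_le_card
  apply Finset.filter_subset_filter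
  intro x hx
  rw [Finset.mem_range] at *
  omega

lemma mu_mono {N N' : ℕ} (h : N ≤ N') (A : PowerSeries k) : mu N A ≤ mu N' A := pc_mono h _

lemma pc_congr {N : ℕ} {A B : PowerSeries k}
    (h : ∀ n ≤ N, PowerSeries.coeff n A = PowerSeries.coeff n B) : pc N A = pc N B := by
  classical
  unfold pc
  congr 1
  apply Finset.filter_congr
  intro n hn
  rw [Finset.mem_range] at hn
  rw [h n (by omega)]

lemma val_congr {N : ℕ} {A B : PowerSeries k}
    (h : ∀ n ≤ N, PowerSeries.coeff n A = PowerSeries.coeff n B) {R : ℕ} (hR : R ≤ N) :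
    val A R = val B R := by
  rw [val_eq_sum, val_eq_sum]
  apply Finset.sum_congr rfl
  intro n hn
  rw [Finset.mem_range] at hn
  exact h n (by omega)

lemma mu_congr {N : ℕ} {A B : PowerSeries k}
    (h : ∀ n ≤ N, PowerSeries.coeff n A = PowerSeries.coeff n B) : mu N A = mu N B := by
  unfold mu
  apply pc_congr
  intro n hn
  exact val_congr h hn

lemma mu_add_le (N : ℕ) (A B : PowerSeries k) : mu N (A + B) ≤ mu N A + mu N B := by
  unfold mu
  rw [add_mul]
  exact pc_add_le _ _ _

lemma pc_neg (N : ℕ) (A : PowerSeries k) : pc N (-A) = pc N A := by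
  classical
  unfold pc
  congr 1
  apply Finset.filter_congr
  intro n _
  simp

lemma mu_neg (N : ℕ) (A : PowerSeries k) : mu N (-A) = mu N A := by
  unfold mu
  rw [neg_mul, pc_neg]

lemma pc_sub_le (N : ℕ) (A B : PowerSeries k) : pc N (A - B) ≤ pc N A + pc N B := by
  rw [sub_eq_add_neg]
  refine (pc_add_le _ _ _).trans ?_
  rw [pc_neg]

lemma mu_sub_le (N : ℕ) (A B : PowerSeries k) : mu N (A - B) ≤ mu N A + mu N B := by
  rw [sub_eq_add_neg]
  refine (mu_add_le _ _ _).trans ?_
  rw [mu_neg]

lemma mu_mul_le (N : ℕ) (A B : PowerSeries k) : mu N (A * B) ≤ mu N A * pc N B := by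
  unfold mu
  have : A * B * PowerSeries.mk (1 : ℕ → k) = (A * PowerSeries.mk (1 : ℕ → k)) * B := by ring
  rw [this]
  exact pc_mul_le _ _ _

lemma mu_sum_le {ι : Type} (N : ℕ) (s : Finset ι) (F : ι → PowerSeries k) :
    mu N (∑ i ∈ s, F i) ≤ ∑ i ∈ s, mu N (F i) := by
  unfold mu
  rw [Finset.sum_mul]
  exact pc_sum_le _ _ _

lemma mu_C_mul_le (N : ℕ) (a : k) (A : PowerSeries k) : mu N (PowerSeries.C a * A) ≤ mu N A := by
  unfold mu
  rw [mul_assoc]
  refine (pc_mul_le _ _ _).trans ?_
  calc pc N (PowerSeries.C a) * pc N (A * PowerSeries.mk (1 : ℕ → k)) ≤ 1 * pc N _ :=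
        Nat.mul_le_mul_right _ (pc_C_le N a)
    _ = _ := one_mul _

lemma val_X_pow (a R : ℕ) : val ((PowerSeries.X : PowerSeries k) ^ a) R = if a ≤ R then 1 else 0 := by
  rw [val_eq_sum]
  have : ∀ n ∈ range (R + 1), PowerSeries.coeff n ((PowerSeries.X : PowerSeries k) ^ a) =
      if n = a then 1 else 0 := by
    intro n _
    rw [PowerSeries.coeff_X_pow]
  rw [Finset.sum_congr rfl this, Finset.sum_ite_eq']
  by_cases h : a ≤ R
  · rw [if_pos h, if_pos (Finset.mem_range.2 (by omega))]
  · rw [if_neg h, if_neg (by rw [Finset.mem_range]; omega)]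

lemma mu_X_sub (N a b : ℕ) (hab : a ≤ b) :
    mu N ((PowerSeries.X : PowerSeries k) ^ b - PowerSeries.X ^ a) ≤ b - a := by
  classical
  rw [mu_eq]
  calc _ ≤ (Finset.Ico a b).card := by
        apply Finset.card_le_card
        intro R hR
        rw [Finset.mem_filter, val_sub, val_X_pow, val_X_pow] at hR
        rw [Finset.mem_Ico]
        by_contra hcon
        apply hR.2
        by_cases h1 : a ≤ R
        · have h2 : b ≤ R := by
            by_contra h
            exact hcon ⟨h1, by omega⟩
          rw [if_pos h1, if_pos h2, sub_self]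
        · rw [if_neg h1, if_neg (by omega), sub_self]
    _ = b - a := Nat.card_Ico a b

lemma mu_C (N : ℕ) (a : k) (ha : a ≠ 0) : mu N (PowerSeries.C a) = N + 1 := by
  classical
  rw [mu_eq]
  have : (range (N + 1)).filter (fun R => val (PowerSeries.C a) R ≠ 0) = range (N + 1) := by
    apply Finset.filter_true_of_mem
    intro R _
    rw [val_C]; exact ha
  rw [this, Finset.card_range]

/-- if the partial sums vanish off a set of size `< B - A`, they vanish somewhere in `[A, B)` -/
lemma exists_val_zero {N A B : ℕ} (G : PowerSeries k) (hB : B ≤ N + 1) (h : mu N G < B - A) :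
    ∃ R, A ≤ R ∧ R < B ∧ val G R = 0 := by
  classical
  by_contra hcon
  push Not at hcon
  have : (Finset.Ico A B).card ≤ mu N G := by
    rw [mu_eq]
    apply Finset.card_le_card
    intro R hR
    rw [Finset.mem_Ico] at hR
    rw [Finset.mem_filter, Finset.mem_range]
    exact ⟨by omega, hcon R hR.1 hR.2⟩
  rw [Nat.card_Ico] at this
  omega

/-! ### collapse operator -/

/-- move the coefficients on `M` by the map `c` -/
noncomputable def Col (M : Finset ℕ) (c : ℕ → ℕ) (A : PowerSeries k) : PowerSeries k :=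
  ∑ y ∈ M, PowerSeries.C (PowerSeries.coeff y A) * PowerSeries.X ^ c y

lemma coeff_Col (M : Finset ℕ) (c : ℕ → ℕ) (A : PowerSeries k) (x : ℕ) :
    PowerSeries.coeff x (Col M c A) = ∑ y ∈ M.filter (fun y => c y = x), PowerSeries.coeff y A := by
  unfold Col
  rw [map_sum, Finset.sum_filter]
  apply Finset.sum_congr rfl
  intro y _
  rw [PowerSeries.coeff_C_mul, PowerSeries.coeff_X_pow]
  by_cases h : c y = x
  · rw [if_pos h, if_pos h.symm, mul_one]
  · rw [if_neg h, if_neg (fun h' => h h'.symm), mul_zero]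

lemma eq_sum_of_supp (M : Finset ℕ) (A : PowerSeries k)
    (hA : ∀ y, PowerSeries.coeff y A ≠ 0 → y ∈ M) :
    A = ∑ y ∈ M, PowerSeries.C (PowerSeries.coeff y A) * PowerSeries.X ^ y := by
  ext n
  rw [map_sum]
  have : ∀ y ∈ M, PowerSeries.coeff n (PowerSeries.C (PowerSeries.coeff y A) * PowerSeries.X ^ y) =
      if n = y then PowerSeries.coeff y A else 0 := by
    intro y _
    rw [PowerSeries.coeff_C_mul, PowerSeries.coeff_X_pow]
    split_ifs <;> simp
  rw [Finset.sum_congr rfl this, Finset.sum_ite_eq]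
  split_ifs with h
  · rfl
  · by_contra h'
    exact h (hA n h')

lemma mu_Col (N : ℕ) (M : Finset ℕ) (c : ℕ → ℕ) (α : ℕ) (hc : ∀ y ∈ M, c y ≤ y ∧ y ≤ c y + α)
    (A : PowerSeries k) (hA : ∀ y, PowerSeries.coeff y A ≠ 0 → y ∈ M) (B : PowerSeries k) :
    mu N ((A - Col M c A) * B) ≤ M.card * α * pc N B := by
  have e1 : (A - Col M c A) * B = ∑ y ∈ M,
      PowerSeries.C (PowerSeries.coeff y A) * ((PowerSeries.X ^ y - PowerSeries.X ^ c y) * B) := by
    conv_lhs => rw [eq_sum_of_supp M A hA]
    have e2 : Col M c (∑ y ∈ M, PowerSeries.C (PowerSeries.coeff y A) * PowerSeries.X ^ y) =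
        Col M c A := by rw [← eq_sum_of_supp M A hA]
    rw [e2]
    unfold Col
    rw [← Finset.sum_sub_distrib, Finset.sum_mul]
    apply Finset.sum_congr rfl
    intro y _
    ring
  rw [e1]
  refine (mu_sum_le _ _ _).trans ?_
  calc ∑ y ∈ M, mu N (PowerSeries.C (PowerSeries.coeff y A) *
        ((PowerSeries.X ^ y - PowerSeries.X ^ c y) * B))
      ≤ ∑ y ∈ M, α * pc N B := by
        apply Finset.sum_le_sum
        intro y hy
        obtain ⟨h1, h2⟩ := hc y hy
        refine (mu_C_mul_le _ _ _).trans ((mu_mul_le _ _ _).trans ?_)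
        apply Nat.mul_le_mul_right
        exact (mu_X_sub N (c y) y h1).trans (by omega)
    _ = _ := by rw [Finset.sum_const, smul_eq_mul]; ring

end

end Pool.Agent.TH842.A3
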