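import Pool.Agent.H323R2.Gen8
import Pool.Agent.H393R2.DC.Fin

/-!
Statements of the pieces of the exponent 3 theorem for all real algebraic irrationals.
-/

set_option autoImplicit false

namespace Pool.Agent.TH842.A3

open Finset Polynomial
open Pool.Agent.H393R2.DC (S Pol V Dn)
open Pool.Agent.H323R2.Gen (badG NR vv)

/-- single prime statement (`c, g` constants, ratio `q ^ F`) -/
def SPh (f : ℤ[X]) (d b : ℕ) (U : ℕ → ℤ) (c g F : ℕ) : Prop :=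
  ∀ (q N K P ℓ e Zl m : ℕ) [Fact q.Prime],
  c ≤ q → (b : ZMod q) ≠ 0 →
  (∀ a : ZMod q, (f.map (Int.castRingHom (ZMod q))).eval a ≠ 0) →
  (badG f d b (Pol b U N) q N).card ≤ e →
  ((range (N + 1)).filter (fun R => S b (f.comp (Pol b U N)) R ≠ 0)).card ≤ e →
  (Dn b U N).card + 1 ≤ m →
  c * m ^ g ≤ (q ^ F) ^ P →
  c * (e + 1) ^ g * m ^ g * (q ^ F) ^ (g * K + g * P) * (Zl + 1) ≤ N →
  c * (K + 1) ≤ 2 ^ ℓ →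
  ∃ (A : Finset ℕ) (δ : ℕ → ℕ → ℕ), (∀ u ∈ A, Zl ≤ u) ∧
    (∀ u ∈ A, ∀ k ≤ K, δ u k ∈ Dn b U N ∧ u < (q ^ F) ^ k * δ u k ∧
      (q ^ F) ^ k * δ u k ≤ u + (e * (q ^ F) ^ (g * K + g * P + g) + 1)) ∧
    (∀ u ∈ A, ∀ u' ∈ A, ∀ k ≤ K, ∀ k' ≤ K, δ u k = δ u' k' → u = u' ∧ k = k') ∧
    K ≤ c * P * (P * A.card * ℓ + 1)

/-- walk bound for ratios `q ^ F` (`Q` bounds the `q ^ F`) -/
def WalkPow (F : ℕ) : Prop :=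
  ∀ (QQ : Finset ℕ) (Q K H Z ℓ : ℕ), (∀ q ∈ QQ, q.Prime) →
    (∀ q ∈ QQ, q ^ F ≤ Q) → ∀ (Λ : Finset ℕ) (A : ℕ → Finset ℕ) (δ : ℕ → ℕ → ℕ → ℕ),
    (∀ q ∈ QQ, ∀ u ∈ A q, ∀ k ≤ K,
      δ q u k ∈ Λ ∧ u < (q ^ F) ^ k * δ q u k ∧ (q ^ F) ^ k * δ q u k ≤ u + H) →
    (∀ q ∈ QQ, ∀ u ∈ A q, ∀ v ∈ A q, ∀ k ≤ K, ∀ j ≤ K,
      δ q u k = δ q v j → u = v ∧ k = j) →
    (∀ q ∈ QQ, ∀ u ∈ A q, Q ^ K * Z ≤ u) → 2 * ℓ * Q ^ (2 * ℓ) * H < Z →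
    Λ.card < 3 ^ ℓ → ∑ q ∈ QQ, (A q).card * K ≤ 5 * ℓ * Λ.card

/-- the growth statement for one sequence -/
def Growth3 (b : ℕ) (U : ℕ → ℤ) : Prop :=
  ∃ c : ℝ, 0 < c ∧ ∃ N0 : ℕ, ∀ N : ℕ, N0 ≤ N →
    c * (Real.log N) ^ 3 / (Real.log (Real.log N)) ^ 6 ≤ ((Dn b U N).card : ℝ)

/-- the growth statement for all monic irreducible polynomials -/
def MG3 : Prop :=
  ∀ (f : ℤ[X]), f.Monic → Irreducible f → 2 ≤ f.natDegree → ∀ (b : ℕ), 2 ≤ b →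
    ∀ (t C0 : ℝ), (f.map (Int.castRingHom ℝ)).eval t = 0 →
    ∀ (U : ℕ → ℤ), (∀ K, |(U K : ℝ) - (b : ℝ) ^ K * t| ≤ C0) → Growth3 b U

end Pool.Agent.TH842.A3
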