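import Pool.Agent.TH842.A3.Clu
import Pool.Agent.TH842.A3.Tr

/-!
One stage: the degree in the unknown series drops.
-/

set_option autoImplicit false

namespace Pool.Agent.TH842.A3

open Finset
open Pool.Agent.H323R2.Gen (pc pc_pow_le)

section
variable {k : Type} [Field k]

/-- the coefficient of the collapsed product at the visible position -/
lemma visible (u ψ : PowerSeries k) (Ms E M1 : Finset ℕ) (z α β e1 ms : ℕ)
    (hα : 1 ≤ α) (hαβ : 2 * α ≤ β)
    (hu : ∀ y, PowerSeries.coeff y u ≠ 0 → y ∈ Ms) (hMz : ∀ y ∈ Ms, y ≤ z)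
    (hψ : ∀ y, PowerSeries.coeff y ψ ≠ 0 → y ∈ E)
    (hEsep : Sep E β) (hMsep : Sep Ms β)
    (he1 : e1 ∈ E) (hgap : ∀ p ∈ E, p < e1 → p + (z + α) < e1)
    (hms : PowerSeries.coeff ms u ≠ 0) (hmin : ∀ y, PowerSeries.coeff y u ≠ 0 → ms ≤ y)
    (hM1 : ms + e1 ∈ M1) :
    PowerSeries.coeff (rep M1 α (ms + e1)) (Col M1 (rep M1 α) (u * ψ)) =
      PowerSeries.coeff ms u * PowerSeries.coeff e1 ψ := by
  classical
  have hpair : ∀ y ∈ M1, rep M1 α y = rep M1 α (ms + e1) → ∀ m e', m + e' = y →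
      PowerSeries.coeff m u * PowerSeries.coeff e' ψ ≠ 0 → m = ms ∧ e' = e1 := by
    intro y hy hr m e' hme hne
    obtain ⟨a1, a2, a3⟩ := rep_spec hα hy
    obtain ⟨b1, b2, b3⟩ := rep_spec hα hM1
    rw [hr] at a2 a3
    have hm := left_ne_zero_of_mul hne
    have he' := right_ne_zero_of_mul hne
    have hmM := hu m hm
    have hmz := hMz m hmM
    have hmm := hmin m hm
    have he'E := hψ e' he'
    rcases lt_trichotomy e' e1 with h | h | h
    · have := hgap e' he'E h
      omega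
    · refine ⟨?_, h⟩
      rcases hmm.lt_or_eq with h2 | h2
      · have := hMsep ms (hu ms hms) m hmM h2
        omega
      · exact h2.symm
    · have := hEsep e1 he1 e' he'E h
      omega
  rw [coeff_Col, Finset.sum_eq_single (ms + e1)]
  · rw [PowerSeries.coeff_mul, Finset.sum_eq_single (ms, e1)]
    · intro x hx hne
      rw [Finset.HasAntidiagonal.mem_antidiagonal] at hx
      by_contra hcon
      obtain ⟨h1, h2⟩ := hpair (ms + e1) hM1 rfl x.1 x.2 hx hcon
      exact hne (Prod.ext h1 h2)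
    · intro h
      exact (h (Finset.HasAntidiagonal.mem_antidiagonal.2 rfl)).elim
  · intro y hy hne
    rw [Finset.mem_filter] at hy
    rw [PowerSeries.coeff_mul]
    apply Finset.sum_eq_zero
    intro x hx
    rw [Finset.HasAntidiagonal.mem_antidiagonal] at hx
    by_contra hcon
    obtain ⟨h1, h2⟩ := hpair y hy.1 hy.2 x.1 x.2 hx hcon
    apply hne
    rw [← hx, h1, h2]
  · intro h
    exact (h (Finset.mem_filter.2 ⟨hM1, rfl⟩)).elim

theorem stage (φ : PowerSeries k) (δ z Γ α β M n e p h : ℕ)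
    (A : ℕ → PowerSeries k) (Ms E 𝓔 : Finset ℕ)
    (hδ : ((δ + 1 : ℕ) : k) ≠ 0)
    (hA : ∀ i ≤ δ + 1, ∀ y, PowerSeries.coeff y (A i) ≠ 0 → y ∈ Ms)
    (hMz : ∀ y ∈ Ms, y ≤ z)
    (hu : A (δ + 1) ≠ 0)
    (hmu : mu Γ (∑ i ∈ range (δ + 2), A i * φ ^ i) ≤ e)
    (hE : ∀ y, z < y → y ≤ Γ → PowerSeries.coeff y φ ≠ 0 → y ∈ E)
    (hE2 : ∀ y ∈ E, z < y ∧ y ≤ Γ ∧ PowerSeries.coeff y φ ≠ 0)
    (hEn : E.card ≤ n) (hEsep : Sep E β) (hMsep : Sep Ms β)
    (hCM : ∀ y ∈ Ms, Comb 𝓔 h (y : ℤ)) (hE𝓔 : E ⊆ 𝓔)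
    (hdich : ∀ x : ℤ, Comb 𝓔 (2 * (h + (δ + 1))) x → |x| < α ∨ (β : ℤ) < |x|)
    (hα : 1 ≤ α) (hαβ : 2 * α ≤ β)
    (hpc : pc Γ φ ≤ M) (hp : Ms.card ≤ p)
    (X1 : ℕ) (hnc : ∃ e0 ∈ E, X1 < e0 ∧ 2 * e0 ≤ Γ)
    (p' e' : ℕ) (hp' : p * (1 + n) ^ (δ + 1) ≤ p')
    (he' : e + (δ + 2) * (p' * α * (1 + M) ^ (δ + 1)) ≤ e')
    (hX1 : n * (z + α) + α + (p' + 1) * ((δ + 1) * z + e' + 2) ≤ X1) (hzΓ : 4 * z ≤ Γ) :
    ∃ (B : ℕ → PowerSeries k) (Ms' : Finset ℕ),
      (∀ i ≤ δ, ∀ y, PowerSeries.coeff y (B i) ≠ 0 → y ∈ Ms') ∧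
      (∃ i ≤ δ, PowerSeries.coeff 0 (B i) ≠ 0) ∧
      (∀ y ∈ Ms', Comb 𝓔 (2 * (h + (δ + 1))) (y : ℤ)) ∧ Sep Ms' β ∧ Ms'.card ≤ p' ∧
      mu z (∑ i ∈ range (δ + 1), B i * φ ^ i) ≤ e' := by
  classical
  -- the two parts of the series
  set φs : PowerSeries k := tr (z + 1) φ with hφs
  set ψ : PowerSeries k := tr (Γ + 1) φ - tr (z + 1) φ with hψ
  have hcψ : ∀ y, PowerSeries.coeff y ψ ≠ 0 → y ∈ E := by
    intro y hy
    rw [hψ, map_sub, coeff_tr, coeff_tr] at hy
    by_cases h1 : y < z + 1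
    · exfalso; apply hy
      rw [if_pos h1, if_pos (by omega), sub_self]
    · rw [if_neg h1, sub_zero] at hy
      by_cases h2 : y < Γ + 1
      · rw [if_pos h2] at hy
        exact hE y (by omega) (by omega) hy
      · rw [if_neg h2] at hy
        exact absurd rfl hy
  have hψE : ∀ y ∈ E, PowerSeries.coeff y ψ = PowerSeries.coeff y φ := by
    intro y hy
    obtain ⟨h1, h2, _⟩ := hE2 y hy
    rw [hψ, map_sub, coeff_tr, coeff_tr, if_pos (by omega), if_neg (by omega), sub_zero]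
  have hagr : Agr Γ φ (φs + ψ) := by
    intro y hy
    rw [hφs, hψ, map_add, map_sub, coeff_tr, coeff_tr, if_pos (show y < Γ + 1 by omega)]
    ring
  -- the translated family
  set A' : ℕ → PowerSeries k := fun i =>
    ∑ j ∈ range (δ + 2), ((j.choose i : ℕ) : PowerSeries k) * (A j * ψ ^ (j - i)) with hA'
  have htay : ∑ j ∈ range (δ + 2), A j * (φs + ψ) ^ j = ∑ i ∈ range (δ + 2), A' i * φs ^ i :=
    taylor (δ + 2) A φs ψ
  have hmu1 : mu Γ (∑ i ∈ range (δ + 2), A' i * φs ^ i) ≤ e := by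
    rw [← htay]
    refine le_trans (le_of_eq ?_) hmu
    apply mu_congr
    intro n hn
    exact ((Agr.sum (fun i _ => (Agr.refl Γ (A i)).mul (hagr.pow i))) n hn).symm
  set M1 : Finset ℕ := SS Ms E (δ + 1) with hM1
  have hM1c : M1.card ≤ p' := by
    refine (SS_card Ms E (δ + 1)).trans (le_trans ?_ hp')
    exact Nat.mul_le_mul hp (Nat.pow_le_pow_left (by omega) _)
  have hM1comb : ∀ y ∈ M1, Comb 𝓔 (h + (δ + 1)) (y : ℤ) := SS_comb hCM hE𝓔 (δ + 1)
  have hM1d : Dich M1 α β := by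
    intro x hx y hy hxy
    have h1 := (hM1comb y hy).sub (hM1comb x hx)
    have h2 : h + (δ + 1) + (h + (δ + 1)) = 2 * (h + (δ + 1)) := by ring
    rw [h2] at h1
    have h3 := hdich _ h1
    rw [abs_of_nonneg (by
      have : (x : ℤ) ≤ y := by exact_mod_cast hxy
      linarith)] at h3
    rcases h3 with h3 | h3
    · left; omega
    · right; omega
  have hsuppA' : ∀ i, ∀ y, PowerSeries.coeff y (A' i) ≠ 0 → y ∈ M1 := by
    intro i
    apply supp_sum
    intro j hj
    rw [Finset.mem_range] at hj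
    apply supp_natCast_mul
    intro y hy
    exact SS_mono Ms E (by omega) (supp_mul_pow (hA j (by omega)) hcψ (j - i) y hy)
  set c : ℕ → ℕ := rep M1 α with hc
  have hcspec : ∀ y ∈ M1, c y ≤ y ∧ y ≤ c y + α := fun y hy => by
    obtain ⟨_, h2, h3⟩ := rep_spec hα hy
    exact ⟨h2, h3.le⟩
  set A2 : ℕ → PowerSeries k := fun i => Col M1 c (A' i) with hA2
  have hpcs : ∀ i ≤ δ + 1, pc Γ (φs ^ i) ≤ (1 + M) ^ (δ + 1) := by
    intro i hi
    have h1 : pc Γ φs ≤ M := by
      refine le_trans (pc_of_supp ?_) hpc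
      intro n _ hn h0
      apply hn
      rw [hφs, coeff_tr]
      split_ifs
      · exact h0
      · rfl
    refine (pc_pow_le Γ φs i).trans ?_
    calc (1 + pc Γ φs) ^ i ≤ (1 + M) ^ i := Nat.pow_le_pow_left (by omega) _
      _ ≤ (1 + M) ^ (δ + 1) := Nat.pow_le_pow_right (by omega) hi
  have hmu2 : mu Γ (∑ i ∈ range (δ + 2), A2 i * φs ^ i) ≤ e' := by
    have e1 : ∑ i ∈ range (δ + 2), A2 i * φs ^ i = ∑ i ∈ range (δ + 2), A' i * φs ^ i -
        ∑ i ∈ range (δ + 2), (A' i - A2 i) * φs ^ i := by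
      rw [← Finset.sum_sub_distrib]
      apply Finset.sum_congr rfl
      intro i _
      ring
    rw [e1]
    refine (mu_sub_le _ _ _).trans (le_trans ?_ he')
    apply Nat.add_le_add hmu1
    refine (mu_sum_le _ _ _).trans ?_
    calc ∑ i ∈ range (δ + 2), mu Γ ((A' i - A2 i) * φs ^ i)
        ≤ ∑ i ∈ range (δ + 2), p' * α * (1 + M) ^ (δ + 1) := by
          apply Finset.sum_le_sum
          intro i hi
          rw [Finset.mem_range] at hi
          refine (mu_Col Γ M1 c α hcspec (A' i) (hsuppA' i) _).trans ?_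
          exact Nat.mul_le_mul (Nat.mul_le_mul_right _ hM1c) (hpcs i (by omega))
      _ = (δ + 2) * (p' * α * (1 + M) ^ (δ + 1)) := by
          rw [Finset.sum_const, Finset.card_range, smul_eq_mul]
  -- the set of live positions
  set P : Finset ℕ := (M1.image c).filter (fun y => ∃ i ≤ δ + 1, PowerSeries.coeff y (A2 i) ≠ 0)
    with hP
  have hPsep : Sep P β := (rep_sep hα hαβ hM1d).mono (Finset.filter_subset _ _)
  have hPM1 : P ⊆ M1 := (Finset.filter_subset _ _).trans (rep_image_sub hα)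
  have hPc : P.card ≤ p' := (Finset.card_le_card hPM1).trans hM1c
  have hPmem : ∀ i ≤ δ + 1, ∀ y, PowerSeries.coeff y (A2 i) ≠ 0 → y ∈ P := by
    intro i hi y hy
    rw [hP, Finset.mem_filter]
    refine ⟨?_, i, hi, hy⟩
    simp only [hA2] at hy
    rw [coeff_Col] at hy
    obtain ⟨x, hx, _⟩ := Finset.exists_ne_zero_of_sum_ne_zero hy
    rw [Finset.mem_filter] at hx
    exact Finset.mem_image.2 ⟨x, hx.1, hx.2⟩
  -- the top coefficient vanishes beyond `z`
  have hA'top : A' (δ + 1) = A (δ + 1) := by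
    simp only [hA']
    rw [Finset.sum_eq_single (δ + 1)]
    · simp
    · intro j hj hne
      rw [Finset.mem_range] at hj
      rw [Nat.choose_eq_zero_of_lt (by omega)]
      simp
    · intro h; exact absurd (Finset.mem_range.2 (by omega)) h
  have htop0 : ∀ y, z < y → PowerSeries.coeff y (A2 (δ + 1)) = 0 := by
    intro y hy
    simp only [hA2]
    rw [coeff_Col]
    apply Finset.sum_eq_zero
    intro x hx
    rw [Finset.mem_filter] at hx
    by_contra hne
    rw [hA'top] at hne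
    have h1 := hMz x (hA _ le_rfl x hne)
    have h2 := (hcspec x hx.1).1
    rw [hx.2] at h2
    omega
  -- visible jump
  obtain ⟨e0, he0, he0X, he0Γ⟩ := hnc
  obtain ⟨e1, he1, he10, he1g, hgap1⟩ := gap_elt E (z + α) e0 he0
  have he1g' : e0 ≤ e1 + n * (z + α) := he1g.trans (Nat.add_le_add_left (Nat.mul_le_mul_right _ hEn) _)
  set g : ℕ := (δ + 1) * z + e' + 1 with hg
  have hX1' : n * (z + α) + α + (p' + 1) * (g + 1) ≤ X1 := by
    rw [hg]
    exact hX1
  -- minimal position of the top coefficient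
  have hex : ∃ y, PowerSeries.coeff y (A (δ + 1)) ≠ 0 := by
    by_contra hcon
    push Not at hcon
    exact hu (by ext y; rw [hcon y, map_zero])
  set ms := Nat.find hex with hms
  have hms1 : PowerSeries.coeff ms (A (δ + 1)) ≠ 0 := Nat.find_spec hex
  have hmin : ∀ y, PowerSeries.coeff y (A (δ + 1)) ≠ 0 → ms ≤ y := fun y hy => Nat.find_min' hex hy
  have hmsM : ms ∈ Ms := hA _ le_rfl ms hms1
  have hmsz : ms ≤ z := hMz ms hmsM
  have hmem1 : ms + e1 ∈ M1 := by
    have h1 : ms + e1 ∈ SS Ms E 1 := SS_add (j := 0) hmsM he1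
    exact SS_mono Ms E (by omega) h1
  set T := c (ms + e1) with hT
  have hTspec := rep_spec hα hmem1
  have hTlow : e1 < T + α := by
    have := hTspec.2.2
    change ms + e1 < T + α at this
    omega
  have hTle : T ≤ ms + e1 := hTspec.2.1
  have hprod : (p' + 1) * (g + 1) = p' * g + p' + g + 1 := by ring
  have hTz : z < T := by
    have h1 : z ≤ g := by
      rw [hg]
      have : z ≤ (δ + 1) * z := Nat.le_mul_of_pos_left _ (by omega)
      omega
    omega
  have hTP : T ∈ P := by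
    apply hPmem δ (by omega)
    simp only [hA2]
    have hA'δ : A' δ = A δ + PowerSeries.C ((δ + 1 : ℕ) : k) * (A (δ + 1) * ψ) := by
      simp only [hA']
      rw [Finset.sum_range_succ, Finset.sum_range_succ]
      have h0 : ∑ j ∈ range δ, ((j.choose δ : ℕ) : PowerSeries k) * (A j * ψ ^ (j - δ)) = 0 := by
        apply Finset.sum_eq_zero
        intro j hj
        rw [Finset.mem_range] at hj
        rw [Nat.choose_eq_zero_of_lt hj]
        simp
      rw [h0, Nat.choose_self, Nat.sub_self, Nat.choose_succ_self_right]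
      have h1 : δ + 1 - δ = 1 := by omega
      rw [h1]
      have h2 : ((δ + 1 : ℕ) : PowerSeries k) = PowerSeries.C ((δ + 1 : ℕ) : k) := by simp
      rw [h2]
      simp
    have hcol : PowerSeries.coeff T (Col M1 c (A' δ)) =
        ((δ + 1 : ℕ) : k) * PowerSeries.coeff T (Col M1 c (A (δ + 1) * ψ)) := by
      rw [coeff_Col, coeff_Col, Finset.mul_sum]
      apply Finset.sum_congr rfl
      intro y hy
      rw [Finset.mem_filter] at hy
      have hyT : T ≤ y := by
        have := (hcspec y hy.1).1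
        rw [hy.2] at this
        exact this
      have h0 : PowerSeries.coeff y (A δ) = 0 := by
        by_contra hne
        have := hMz y (hA δ (by omega) y hne)
        omega
      rw [hA'δ, map_add, h0, zero_add, PowerSeries.coeff_C_mul]
    rw [hcol]
    have hvis := visible (A (δ + 1)) ψ Ms E M1 z α β e1 ms hα hαβ (hA _ le_rfl) hMz hcψ hEsep
      hMsep he1 hgap1 hms1 hmin hmem1
    rw [hT, hc]
    rw [hvis]
    apply mul_ne_zero hδ
    apply mul_ne_zero hms1
    rw [hψE e1 he1]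
    exact (hE2 e1 he1).2.2
  -- the position preceded by a gap
  obtain ⟨T0, hT0P, hT0T, hTT0, hgap0⟩ := gap_elt P g T hTP
  have hTT0' : T ≤ T0 + p' * g := hTT0.trans (Nat.add_le_add_left (Nat.mul_le_mul_right _ hPc) _)
  have hT0g : g + 1 ≤ T0 := by omega
  have hzg : (δ + 1) * z ≤ g := by rw [hg]; omega
  have hz1 : z ≤ (δ + 1) * z := Nat.le_mul_of_pos_left _ (by omega)
  have hT0Γ : T0 + z ≤ Γ := by omega
  -- decomposition
  set low : ℕ → PowerSeries k := fun i => tr T0 (A2 i) with hlow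
  set B : ℕ → PowerSeries k := fun i => sh T0 (A2 i) with hB
  have hlim : ∀ i ∈ range (δ + 2), Lim (low i * φs ^ i) (T0 - g - 1 + (δ + 1) * z)
      (val (low i) (T0 - g - 1) * (val φs z) ^ i) := by
    intro i hi
    rw [Finset.mem_range] at hi
    have h1 : Lim (low i) (T0 - g - 1) (val (low i) (T0 - g - 1)) := by
      apply Lim.of_zero
      intro y hy
      simp only [hlow]
      rw [coeff_tr]
      by_cases h2 : y < T0
      · rw [if_pos h2]
        by_contra hne
        have := hgap0 y (hPmem i (by omega) y hne) h2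
        omega
      · rw [if_neg h2]
    have h2 : Lim φs z (val φs z) := by
      apply Lim.of_zero
      intro y hy
      rw [hφs, coeff_tr, if_neg (by omega)]
    refine (h1.mul (h2.pow i)).mono ?_
    have : i * z ≤ (δ + 1) * z := Nat.mul_le_mul_right _ (by omega)
    omega
  have hlimS := Lim.sum hlim
  set cst : k := ∑ i ∈ range (δ + 2), val (low i) (T0 - g - 1) * (val φs z) ^ i with hcst
  have hdec : ∑ i ∈ range (δ + 2), A2 i * φs ^ i = ∑ i ∈ range (δ + 2), low i * φs ^ i +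
      PowerSeries.X ^ T0 * ∑ i ∈ range (δ + 2), B i * φs ^ i := by
    rw [Finset.mul_sum, ← Finset.sum_add_distrib]
    apply Finset.sum_congr rfl
    intro i _
    conv_lhs => rw [tr_add_sh T0 (A2 i)]
    simp only [hlow, hB]
    ring
  have hcst0 : cst = 0 := by
    obtain ⟨R, hR1, hR2, hR3⟩ := exists_val_zero (N := Γ) (A := T0 - g - 1 + (δ + 1) * z) (B := T0)
      (∑ i ∈ range (δ + 2), A2 i * φs ^ i) (by omega) (by omega)
    rw [hdec, val_add, hlimS.lim R hR1, val_X_pow_mul_lt T0 _ hR2, add_zero] at hR3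
    exact hR3
  have hBtop : B (δ + 1) = 0 := by
    ext y
    simp only [hB]
    rw [coeff_sh, htop0 (T0 + y) (by omega), map_zero]
  have hval : ∀ r ≤ z, val (∑ i ∈ range (δ + 2), A2 i * φs ^ i) (T0 + r) =
      val (∑ i ∈ range (δ + 1), B i * φ ^ i) r := by
    intro r hr
    rw [hdec, val_add, hlimS.lim (T0 + r) (by omega), hcst0, zero_add, val_X_pow_mul_add,
      Finset.sum_range_succ, hBtop, zero_mul, add_zero]
    apply val_congr (N := z) _ hr
    apply Agr.sum
    intro i _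
    apply (Agr.refl z (B i)).mul
    apply Agr.pow
    intro y hy
    rw [hφs, coeff_tr, if_pos (by omega)]
  refine ⟨B, (P.filter (fun y => T0 ≤ y)).image (fun y => y - T0), ?_, ?_, ?_, ?_, ?_, ?_⟩
  · intro i hi y hy
    simp only [hB] at hy
    rw [coeff_sh] at hy
    rw [Finset.mem_image]
    refine ⟨T0 + y, Finset.mem_filter.2 ⟨hPmem i (by omega) _ hy, by omega⟩, by omega⟩
  · obtain ⟨i, hi, hne⟩ := (Finset.mem_filter.1 hT0P).2
    have hi' : i ≤ δ := by
      by_contra hcon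
      have : i = δ + 1 := by omega
      rw [this] at hne
      exact hne (htop0 T0 (by omega))
    refine ⟨i, hi', ?_⟩
    simp only [hB]
    rw [coeff_sh, add_zero]
    exact hne
  · intro y hy
    obtain ⟨x, hx, rfl⟩ := Finset.mem_image.1 hy
    rw [Finset.mem_filter] at hx
    have h1 := (hM1comb x (hPM1 hx.1)).sub (hM1comb T0 (hPM1 hT0P))
    have h2 : h + (δ + 1) + (h + (δ + 1)) = 2 * (h + (δ + 1)) := by ring
    rw [h2] at h1
    rw [Nat.cast_sub hx.2]
    exact h1
  · intro x hx y hy hxy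
    obtain ⟨x', hx', rfl⟩ := Finset.mem_image.1 hx
    obtain ⟨y', hy', rfl⟩ := Finset.mem_image.1 hy
    rw [Finset.mem_filter] at hx' hy'
    have := hPsep x' hx'.1 y' hy'.1 (by omega)
    omega
  · refine Finset.card_image_le.trans ((Finset.card_filter_le _ _).trans hPc)
  · refine le_trans ?_ hmu2
    rw [mu_eq, mu_eq]
    apply Finset.card_le_card_of_injOn (fun r => T0 + r)
    · intro r hr
      rw [Finset.mem_coe, Finset.mem_filter, Finset.mem_range] at hr
      rw [Finset.mem_coe, Finset.mem_filter, Finset.mem_range]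
      simp only
      refine ⟨by omega, ?_⟩
      rw [hval r (by omega)]
      exact hr.2
    · intro a _ b _ hab
      simp only at hab
      omega

end

end Pool.Agent.TH842.A3
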